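import Pool.Agent.Y17.N.Defs
import Pool.Agent.Z125.Rep

/-!
# Project Z17N: representations of `3 q m` by `b² + 14 y²`, existence and rigidity
-/

set_option autoImplicit false

namespace Pool.Agent.Y100.Z17N

open Finset
open Pool.Agent.Z700 (pr)
open Pool.Agent.Y17.N
open Pool.Agent.Z125 (red56)

theorem sqm7 (x : ℤ) : x ^ 2 % 7 = 0 ∨ x ^ 2 % 7 = 1 ∨ x ^ 2 % 7 = 2 ∨ x ^ 2 % 7 = 4 := by
  have h : x % 7 = 0 ∨ x % 7 = 1 ∨ x % 7 = 2 ∨ x % 7 = 3 ∨ x % 7 = 4 ∨ x % 7 = 5 ∨ x % 7 = 6 := by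
    omega
  rcases h with h | h | h | h | h | h | h <;> simp [pow_two, Int.mul_emod, h]

/-- from the symbol to a root -/
theorem root_of {p : ℕ} (hp : p.Prime) (e3 : jacobiSym (-14) p = 1) :
    ∃ t : ℤ, (p : ℤ) ∣ t ^ 2 + 14 := by
  have : Fact p.Prime := ⟨hp⟩
  obtain ⟨s, hs⟩ := ZMod.isSquare_of_jacobiSym_eq_one e3
  refine ⟨(s.val : ℤ), ?_⟩
  rw [← ZMod.intCast_zmod_eq_zero_iff_dvd]
  push_cast
  rw [ZMod.natCast_zmod_val]
  push_cast at hs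
  linear_combination -hs

theorem jac_split {p : ℕ} : jacobiSym (-14) p =
    jacobiSym (-1) p * jacobiSym 2 p * jacobiSym ((7 : ℕ) : ℤ) p := by
  have e : (-14 : ℤ) = -1 * 2 * ((7 : ℕ) : ℤ) := by norm_num
  rw [e, jacobiSym.mul_left, jacobiSym.mul_left]

theorem jac7_mod (p : ℕ) : jacobiSym (p : ℤ) 7 = jacobiSym ((p % 7 : ℕ) : ℤ) 7 := by
  rw [jacobiSym.mod_left (p : ℤ) 7]
  push_cast
  rfl

theorem sq14_sp {p : ℕ} (h : Sp p) : ∃ t : ℤ, (p : ℤ) ∣ t ^ 2 + 14 := by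
  refine root_of h.1 ?_
  have h8 := h.2.1
  have hodd : Odd p := Nat.odd_iff.2 (by omega)
  have e1 : jacobiSym (-1) p = 1 := Pool.Agent.Z125.jac_neg_one (by omega)
  have e2 : jacobiSym 2 p = 1 := by
    rw [jacobiSym.at_two hodd, ZMod.χ₈_nat_eq_if_mod_eight]
    simp [h8]
    omega
  have h1 : jacobiSym ((7 : ℕ) : ℤ) p = jacobiSym (p : ℤ) 7 :=
    jacobiSym.quadratic_reciprocity_one_mod_four' (by decide) (by omega)
  rw [jac_split, e1, e2, h1, jac7_mod]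
  rcases h.2.2 with h | h | h <;> rw [h] <;> norm_num [jacobiSym]

theorem sq14_q {q : ℕ} (h : Qr q) : ∃ t : ℤ, (q : ℤ) ∣ t ^ 2 + 14 := by
  refine root_of h.1 ?_
  have h8 := h.2.1
  have hodd : Odd q := Nat.odd_iff.2 (by omega)
  have e1 : jacobiSym (-1) q = -1 := by
    rw [jacobiSym.at_neg_one hodd, ZMod.χ₄_nat_three_mod_four (by omega)]
  have e2 : jacobiSym 2 q = -1 := by
    rw [jacobiSym.at_two hodd, ZMod.χ₈_nat_eq_if_mod_eight]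
    simp [h8]
    omega
  have h1 : jacobiSym ((7 : ℕ) : ℤ) q = -jacobiSym (q : ℤ) 7 :=
    jacobiSym.quadratic_reciprocity_three_mod_four (by decide) (by omega)
  rw [jac_split, e1, e2, h1, jac7_mod]
  rcases h.2.2 with h | h | h <;> rw [h] <;> norm_num [jacobiSym]

theorem rep_of {p : ℕ} (hp : p.Prime) (h14 : ∃ t : ℤ, (p : ℤ) ∣ t ^ 2 + 14) :
    (∃ g f : ℤ, (p : ℤ) = g ^ 2 + 14 * f ^ 2) ∨ (∃ h k : ℤ, (p : ℤ) = 2 * h ^ 2 + 7 * k ^ 2) ∨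
    ∃ u v : ℤ, (p : ℤ) = 3 * u ^ 2 + 2 * u * v + 5 * v ^ 2 := by
  obtain ⟨t, c, hc⟩ := h14
  have hp0 : (0 : ℤ) < p := by exact_mod_cast hp.pos
  have hc0 : 0 < c := by
    by_contra h
    push Not at h
    nlinarith [sq_nonneg t]
  obtain ⟨A, B, C, x, y, z, w, h1, h2, h3, h4⟩ := red56 (p + c.toNat) p t c (by
    push_cast
    rw [Int.toNat_of_nonneg hc0.le]) hp0 hc0 (by linear_combination -hc)
  rcases h1 with ⟨rfl, rfl, rfl⟩ | ⟨rfl, rfl, rfl⟩ | ⟨rfl, rfl, rfl⟩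
  · exact Or.inl ⟨x, y, by linear_combination h2⟩
  · exact Or.inr (Or.inl ⟨x, y, by linear_combination h2⟩)
  · exact Or.inr (Or.inr ⟨x, y, by linear_combination h2⟩)

theorem sp_rep {p : ℕ} (hF : Sp p) : (∃ g f : ℤ, (p : ℤ) = g ^ 2 + 14 * f ^ 2) ∨
    (∃ h k : ℤ, (p : ℤ) = 2 * h ^ 2 + 7 * k ^ 2) := by
  rcases rep_of hF.1 (sq14_sp hF) with h | h | ⟨u, v, h⟩
  · exact Or.inl h
  · exact Or.inr h
  · exfalso
    have h7 := hF.2.2
    have h1 := sqm7 (3 * u + v)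
    have h2 : (3 * u + v) ^ 2 = 3 * p - 14 * v ^ 2 := by rw [h]; ring
    rw [h2] at h1
    omega

theorem q_rep {q : ℕ} (hF : Qr q) : ∃ u v : ℤ, (q : ℤ) = 3 * u ^ 2 + 2 * u * v + 5 * v ^ 2 := by
  have h7 := hF.2.2
  rcases rep_of hF.1 (sq14_q hF) with ⟨g, f, h⟩ | ⟨g, k, h⟩ | h
  · exfalso
    have := sqm7 g
    omega
  · exfalso
    have := sqm7 g
    omega
  · exact h

theorem pr_insert {p : ℕ} {P : Finset ℕ} (hp : p ∉ P) : pr (insert p P) = p * pr P :=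
  Finset.prod_insert hp

theorem both_rep {q : ℕ} (hq : Qr q) (P : Finset ℕ) (hP : ∀ p ∈ P, Sp p) :
    (∃ x y : ℤ, 3 * (q : ℤ) * (pr P : ℤ) = x ^ 2 + 14 * y ^ 2) ∧
    (∃ x y : ℤ, 3 * (q : ℤ) * (pr P : ℤ) = 2 * x ^ 2 + 7 * y ^ 2) := by
  classical
  induction P using Finset.induction_on with
  | empty =>
    obtain ⟨u, v, h⟩ := q_rep hq
    have e : (pr ∅ : ℤ) = 1 := by simp [pr]
    rw [e, h]
    exact ⟨⟨3 * u + v, v, by ring⟩, ⟨u - 2 * v, u + v, by ring⟩⟩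
  | insert p Q hpQ ih =>
    obtain ⟨⟨x, y, h1⟩, ⟨x', y', h2⟩⟩ := ih fun r hr => hP r (mem_insert_of_mem hr)
    rw [pr_insert hpQ]
    push_cast
    rcases sp_rep (hP p (mem_insert_self _ _)) with ⟨f, g, h⟩ | ⟨f, g, h⟩
    · refine ⟨⟨x * f - 14 * y * g, x * g + y * f, ?_⟩,
        ⟨x' * f - 7 * y' * g, y' * f + 2 * x' * g, ?_⟩⟩
      · linear_combination (p : ℤ) * h1 + (x ^ 2 + 14 * y ^ 2) * h
      · linear_combination (p : ℤ) * h2 + (2 * x' ^ 2 + 7 * y' ^ 2) * h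
    · refine ⟨⟨2 * x' * f - 7 * y' * g, x' * g + y' * f, ?_⟩,
        ⟨x * f - 7 * y * g, x * g + 2 * y * f, ?_⟩⟩
      · linear_combination (p : ℤ) * h2 + (2 * x' ^ 2 + 7 * y' ^ 2) * h
      · linear_combination (p : ℤ) * h1 + (x ^ 2 + 14 * y ^ 2) * h

theorem pr_mod8 {P : Finset ℕ} (hP : ∀ p ∈ P, Sp p) : pr P % 8 = 1 := by
  classical
  induction P using Finset.induction_on with
  | empty => simp [pr]
  | insert p Q hpQ ih =>
    have h1 := ih fun q hq => hP q (Finset.mem_insert_of_mem hq)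
    have h2 := (hP p (Finset.mem_insert_self _ _)).2.1
    rw [pr_insert hpQ, Nat.mul_mod, h1, h2]

theorem three_not {P : Finset ℕ} (hP : ∀ p ∈ P, Sp p) : ¬ 3 ∣ pr P := by
  intro h
  obtain ⟨p, hp, h1⟩ := (Nat.prime_three.prime.dvd_finsetProd_iff _).1 h
  have h2 := (Nat.prime_dvd_prime_iff_eq Nat.prime_three (hP p hp).1).1 h1
  have := (hP p hp).2.1
  omega

theorem t_SQA : S_SQA := by
  intro q P hq hq3 hP
  obtain ⟨⟨x, y, h⟩, -⟩ := both_rep hq P hP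
  have h8 : ((pr P : ℕ) : ℤ) % 8 = 1 := by exact_mod_cast pr_mod8 hP
  have hq8 : (q : ℤ) % 8 = 3 := by exact_mod_cast hq.2.1
  have hN : (3 * (q : ℤ) * (pr P : ℤ)) % 8 = 1 := by
    rw [Int.mul_emod, Int.mul_emod 3, h8, hq8]; norm_num
  have hx2 : x % 2 = 1 := by
    by_contra hc
    obtain ⟨u, hu⟩ : ∃ u, x = 2 * u := ⟨x / 2, by omega⟩
    rw [h, hu] at hN
    have : (2 * u) ^ 2 + 14 * y ^ 2 = 2 * (2 * u ^ 2 + 7 * y ^ 2) := by ring
    omega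
  have hqm : ¬ (3 : ℤ) ∣ (q : ℤ) * (pr P : ℤ) := by
    intro h3
    rcases Int.prime_three.dvd_or_dvd h3 with h4 | h4
    · have h5 : 3 ∣ q := by exact_mod_cast h4
      exact hq3 ((Nat.prime_dvd_prime_iff_eq Nat.prime_three hq.1).1 h5).symm
    · exact three_not hP (by exact_mod_cast h4)
  have hx3 : ¬ (3 : ℤ) ∣ x := by
    rintro ⟨u, rfl⟩
    have h1 : (3 : ℤ) ∣ y ^ 2 := by
      refine ⟨5 * y ^ 2 - (q : ℤ) * pr P + 3 * u ^ 2, ?_⟩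
      linear_combination h
    obtain ⟨v, rfl⟩ := Int.prime_three.dvd_of_dvd_pow h1
    apply hqm
    exact ⟨u ^ 2 + 14 * v ^ 2, by linarith⟩
  obtain ⟨u, hu, hu4, hu3⟩ : ∃ u : ℤ, u ^ 2 = x ^ 2 ∧ u % 4 = 1 ∧ ¬ (3 : ℤ) ∣ u := by
    by_cases h : x % 4 = 1
    · exact ⟨x, rfl, h, hx3⟩
    · exact ⟨-x, by ring, by omega, fun h => hx3 ((dvd_neg).1 h)⟩
  have hdiv : (3 : ℤ) ∣ (y - u) * (y + u) := by
    refine ⟨5 * y ^ 2 - (q : ℤ) * pr P, ?_⟩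
    linear_combination h - hu
  rcases Int.prime_three.dvd_or_dvd hdiv with h3 | h3
  · exact ⟨(u, y), by rw [hu]; exact h, hu4, h3⟩
  · refine ⟨(u, -y), by rw [neg_sq, hu]; exact h, hu4, ?_⟩
    obtain ⟨k, hk⟩ := h3
    exact ⟨-k, by simp only; linarith⟩

theorem no_rep7 {q u v Z : ℤ} (hu : 0 < u) (huv : u + v = q) (hcop : IsCoprime u v)
    (h : u * v = 14 * Z ^ 2) (h7 : (7 : ℤ) ∣ v) : q % 7 = 0 ∨ q % 7 = 1 ∨ q % 7 = 2 ∨ q % 7 = 4 := by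
  obtain ⟨v', rfl⟩ := h7
  have h1 : u * v' = 2 * Z ^ 2 := by linarith
  have hcop' : IsCoprime u v' := IsCoprime.of_mul_right_right hcop
  have h2 : (2 : ℤ) ∣ u * v' := ⟨Z ^ 2, h1⟩
  rcases Int.prime_two.dvd_or_dvd h2 with ⟨u', rfl⟩ | ⟨w, rfl⟩
  · have h3 : u' * v' = Z ^ 2 := by linarith
    have hc : IsCoprime u' v' := IsCoprime.of_mul_left_right hcop'
    obtain ⟨s, hs | hs⟩ := Int.sq_of_isCoprime hc h3
    · have := sqm7 s
      omega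
    · have := sq_nonneg s
      omega
  · have h3 : u * w = Z ^ 2 := by linarith
    have hc : IsCoprime u w := IsCoprime.of_mul_right_right hcop'
    obtain ⟨s, hs | hs⟩ := Int.sq_of_isCoprime hc h3
    · have := sqm7 s
      omega
    · have := sq_nonneg s
      omega

theorem rigid {q : ℕ} (hq : Qr q) {X Y : ℤ} (h : X ^ 2 + 14 * Y ^ 2 = (q : ℤ) ^ 2) : Y = 0 := by
  by_contra hY
  have hq8 : (q : ℤ) % 8 = 3 := by exact_mod_cast hq.2.1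
  have h7 := hq.2.2
  have hq0 : (0 : ℤ) < q := by exact_mod_cast hq.1.pos
  have hYp : 0 < Y ^ 2 := by positivity
  have hX : X % 2 = 1 := by
    by_contra hc
    obtain ⟨u, rfl⟩ : ∃ u, X = 2 * u := ⟨X / 2, by omega⟩
    obtain ⟨k, hk⟩ : ∃ k : ℤ, (q : ℤ) = 2 * k + 1 := ⟨q / 2, by omega⟩
    have : 2 * (2 * u ^ 2 + 7 * Y ^ 2 - 2 * k ^ 2 - 2 * k) = 1 := by
      rw [hk] at h; linear_combination h
    omega
  obtain ⟨x, hx⟩ : ∃ x, X = 2 * x + 1 := ⟨X / 2, by omega⟩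
  obtain ⟨k, hk⟩ : ∃ k : ℤ, (q : ℤ) = 2 * k + 1 := ⟨q / 2, by omega⟩
  have hY2 : Y % 2 = 0 := by
    by_contra hc
    obtain ⟨y, hy⟩ : ∃ y, Y = 2 * y + 1 := ⟨Y / 2, by omega⟩
    obtain ⟨a, ha⟩ := Int.even_mul_succ_self x
    obtain ⟨b, hb⟩ := Int.even_mul_succ_self k
    have : 4 * (2 * a - 2 * b + 14 * y ^ 2 + 14 * y) + 14 = 0 := by
      rw [hx, hk, hy] at h
      linear_combination h - 4 * ha + 4 * hb
    omega
  obtain ⟨Z, hZ⟩ : ∃ Z, Y = 2 * Z := ⟨Y / 2, by omega⟩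
  have hlt : X ^ 2 < (q : ℤ) ^ 2 := by nlinarith
  have habs := abs_lt_of_sq_lt_sq hlt hq0.le
  rw [abs_lt] at habs
  have huv : (k - x) * (k + x + 1) = 14 * Z ^ 2 := by
    rw [hx, hk, hZ] at h
    have : 4 * ((k - x) * (k + x + 1)) = 4 * (14 * Z ^ 2) := by linear_combination -h
    linarith
  have hu : 0 < k - x := by omega
  have hv : 0 < k + x + 1 := by omega
  have hs : (k - x) + (k + x + 1) = q := by rw [hk]; ring
  have hcop : IsCoprime (k - x) (k + x + 1) := by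
    have hqp : Prime (q : ℤ) := Nat.prime_iff_prime_int.1 hq.1
    have hnd : ¬ (q : ℤ) ∣ k - x := by
      intro hd
      have := Int.le_of_dvd hu hd
      omega
    obtain ⟨a, b, hab⟩ := (hqp.irreducible.coprime_iff_not_dvd).2 hnd
    exact ⟨a + b, a, by rw [← hs] at hab; linear_combination hab⟩
  have h77 : (7 : ℤ) ∣ (k - x) * (k + x + 1) := ⟨2 * Z ^ 2, by rw [huv]; ring⟩
  rcases (by norm_num : Prime (7 : ℤ)).dvd_or_dvd h77 with h8 | h8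
  · have := no_rep7 (q := (q : ℤ)) hv (by rw [add_comm]; exact hs) hcop.symm (by rw [mul_comm]; exact huv) h8
    omega
  · have := no_rep7 hu hs hcop huv h8
    omega

theorem pr_dvd {P : Finset ℕ} (hP : ∀ p ∈ P, Nat.Prime p) {z : ℤ} (h : ∀ p ∈ P, (p : ℤ) ∣ z) :
    (pr P : ℤ) ∣ z := by
  classical
  unfold pr
  rw [Nat.cast_prod]
  refine Finset.prod_dvd_of_coprime ?_ h
  intro p hp q hq hpq
  exact Nat.isCoprime_iff_coprime.2 ((Nat.coprime_primes (hP p hp) (hP q hq)).mpr hpq)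

theorem t_SQC : S_SQC := by
  rintro q P hq hq3 hP ⟨b, y⟩ ⟨h1, h2, h3⟩ ⟨b', y'⟩ ⟨h1', h2', h3'⟩ hdiv
  simp only at h1 h2 h3 h1' h2' h3' hdiv
  have hm := pr_dvd (fun p hp => (hP p hp).1) hdiv
  have hm0 : (pr P : ℤ) ≠ 0 := by
    intro h0
    have h8 : ((pr P : ℕ) : ℤ) % 8 = 1 := by exact_mod_cast pr_mod8 hP
    omega
  have hq0 : (0 : ℤ) < q := by exact_mod_cast hq.1.pos
  have hd3 : (3 : ℤ) ∣ b * y' - b' * y := by
    obtain ⟨u, hu⟩ := h3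
    obtain ⟨v, hv⟩ := h3'
    exact ⟨b * v - b' * u, by linear_combination b * hv - b' * hu⟩
  have hcop : IsCoprime (3 : ℤ) (pr P : ℤ) :=
    (Int.prime_three.irreducible.coprime_iff_not_dvd).2 fun h => three_not hP (by exact_mod_cast h)
  obtain ⟨Y, hY⟩ := hcop.mul_dvd hd3 hm
  have hid : (b * b' + 14 * y * y') ^ 2 + 14 * (b * y' - b' * y) ^ 2 =
      (3 * (q : ℤ) * (pr P : ℤ)) ^ 2 := by
    have : (3 * (q : ℤ) * (pr P : ℤ)) ^ 2 =
        (b ^ 2 + 14 * y ^ 2) * (b' ^ 2 + 14 * y' ^ 2) := by rw [← h1, ← h1']; ring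
    rw [this]; ring
  have hA : (3 * (pr P : ℤ)) ∣ b * b' + 14 * y * y' := by
    have h5 : (3 * (pr P : ℤ)) ^ 2 ∣ (b * b' + 14 * y * y') ^ 2 := by
      refine ⟨(q : ℤ) ^ 2 - 14 * Y ^ 2, ?_⟩
      rw [hY] at hid
      linear_combination hid
    exact (Int.pow_dvd_pow_iff two_ne_zero).1 h5
  obtain ⟨X, hX⟩ := hA
  have h3m : (3 * (pr P : ℤ)) ≠ 0 := mul_ne_zero (by norm_num) hm0
  have hXY : X ^ 2 + 14 * Y ^ 2 = (q : ℤ) ^ 2 := by
    apply mul_left_cancel₀ (pow_ne_zero 2 h3m)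
    rw [hX, hY] at hid
    linear_combination hid
  have hY0 := rigid hq hXY
  rw [hY0, mul_zero] at hY
  have hN : 3 * (q : ℤ) * (pr P : ℤ) ≠ 0 := mul_ne_zero (mul_ne_zero (by norm_num) hq0.ne') hm0
  have hbb : b ^ 2 = b' ^ 2 := by
    apply mul_left_cancel₀ hN
    have e1 : b * y' = b' * y := by linarith
    calc 3 * (q : ℤ) * (pr P : ℤ) * b ^ 2 = b' ^ 2 * b ^ 2 + 14 * (b * y') ^ 2 := by
          rw [h1']; ring
      _ = b' ^ 2 * b ^ 2 + 14 * (b' * y) ^ 2 := by rw [e1]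
      _ = 3 * (q : ℤ) * (pr P : ℤ) * b' ^ 2 := by rw [h1]; ring
  have hb : b = b' := by
    rcases sq_eq_sq_iff_eq_or_eq_neg.1 hbb with h | h
    · exact h
    · omega
  subst hb
  have hb0 : b ≠ 0 := by rintro rfl; omega
  have hyy : y = y' := by
    apply mul_left_cancel₀ hb0
    linarith
  rw [hyy]

end Pool.Agent.Y100.Z17N
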